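import Mathlib

set_option autoImplicit false

namespace Pool.Agent.H.MP_26c4ab_lc

open Filter

def SetFE (A B : Set ℕ+) : Prop := ∀ F : Finset ℕ+, ↑F ⊆ A → ∃ k : ℕ+, ∀ x ∈ F, k * x ∈ B

def FE (F G : Ultrafilter ℕ+) : Prop := ∀ B ∈ G, ∃ A ∈ F, SetFE A B

noncomputable def p (i : ℕ) : ℕ := Nat.nth Nat.Prime (i + 1)

lemma p_prime (i : ℕ) : (p i).Prime := Nat.prime_nth_prime _

lemma p_inj : Function.Injective p := fun _ _ h =>
  Nat.succ_injective (Nat.nth_injective Nat.infinite_setOf_prime h)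

lemma p_ne_two (i : ℕ) : p i ≠ 2 := fun h => by
  have : Nat.nth Nat.Prime (i + 1) = Nat.nth Nat.Prime 0 := h.trans Nat.nth_prime_zero_eq_two.symm
  have := Nat.nth_injective Nat.infinite_setOf_prime this
  omega

noncomputable def a (n N : ℕ) : ℕ+ :=
  ⟨2 ^ N * ∏ i ∈ Finset.Ico n N, p i, Nat.mul_pos (by positivity) (Finset.prod_pos fun i _ => (p_prime i).pos)⟩

lemma p_dvd {n N l : ℕ} (h : p l ∣ (a n N : ℕ)) : n ≤ l ∧ l < N := by
  rcases ((p_prime l).dvd_mul).1 h with h | h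
  · exact absurd ((Nat.prime_dvd_prime_iff_eq (p_prime l) Nat.prime_two).1
      ((p_prime l).dvd_of_dvd_pow h)) (p_ne_two l)
  · obtain ⟨i, hi, h⟩ := ((p_prime l).prime.dvd_finset_prod_iff _).1 h
    rw [p_inj ((Nat.prime_dvd_prime_iff_eq (p_prime l) (p_prime i)).1 h)]
    exact Finset.mem_Ico.1 hi

lemma a_split {n N M : ℕ} (h1 : n ≤ N) (h : N ≤ M) :
    (a n M : ℕ) = a n N * (2 ^ (M - N) * ∏ i ∈ Finset.Ico N M, p i) := by
  show 2 ^ M * _ = 2 ^ N * _ * _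
  rw [← Finset.prod_Ico_consecutive p h1 h]
  conv_lhs => rw [show M = N + (M - N) by omega, pow_add]
  rw [show N + (M - N) = M by omega]
  ring

noncomputable def chain (n : ℕ) : Ultrafilter ℕ+ := (hyperfilter ℕ).map (a n)

noncomputable def pp (n : ℕ) : ℕ+ := ⟨p n, (p_prime n).pos⟩

lemma chain_succ (n : ℕ) : FE (chain (n + 1)) (chain n) := by
  intro B hB
  refine ⟨{x | pp n * x ∈ B}, ?_, fun F hF => ⟨_, fun x hx => hF hx⟩⟩
  have h1 : ∀ᶠ N in hyperfilter ℕ, a n N ∈ B := hB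
  have h2 : ∀ᶠ N in hyperfilter ℕ, n < N := Nat.hyperfilter_le_atTop (eventually_gt_atTop n)
  show ∀ᶠ N in hyperfilter ℕ, pp n * a (n + 1) N ∈ B
  filter_upwards [h1, h2] with N h1 h2
  have : pp n * a (n + 1) N = a n N := PNat.eq (by
    show p n * (2 ^ N * _) = 2 ^ N * _
    rw [Finset.prod_eq_prod_Ico_succ_bot h2]; ring)
  rwa [this]

lemma FE.refl (F : Ultrafilter ℕ+) : FE F F := fun B hB => ⟨B, hB, fun _ h => ⟨1, fun _ hx => by simpa using h hx⟩⟩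

lemma FE.trans {F G H : Ultrafilter ℕ+} (h1 : FE F G) (h2 : FE G H) : FE F H := by
  classical
  intro C hC
  obtain ⟨B, hB, hBC⟩ := h2 C hC
  obtain ⟨A, hA, hAB⟩ := h1 B hB
  refine ⟨A, hA, fun S hS => ?_⟩
  obtain ⟨k, hk⟩ := hAB S hS
  obtain ⟨l, hl⟩ := hBC (S.image (k * ·)) (by
    intro y hy
    obtain ⟨x, hx, rfl⟩ := Finset.mem_image.1 (Finset.mem_coe.1 hy)
    exact hk x hx)
  exact ⟨l * k, fun x hx => by rw [mul_assoc]; exact hl _ (Finset.mem_image_of_mem _ hx)⟩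

lemma chain_anti {i j : ℕ} (h : i ≤ j) : FE (chain j) (chain i) := by
  induction h with
  | refl => exact FE.refl _
  | step _ ih => exact (chain_succ _).trans ih

lemma pow_lower (k n : ℕ) : FE (pure (2 ^ k)) (chain n) := by
  intro B hB
  have h1 : ∀ᶠ N in hyperfilter ℕ, a n N ∈ B := hB
  have h2 : ∀ᶠ N in hyperfilter ℕ, k ≤ N := Nat.hyperfilter_le_atTop (eventually_ge_atTop k)
  obtain ⟨N, h1, h2⟩ := (h1.and h2).exists
  have : (2 ^ k : ℕ+) ∣ a n N := PNat.dvd_iff.2 (by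
    show 2 ^ k ∣ 2 ^ N * _
    exact (pow_dvd_pow 2 h2).mul_right _)
  obtain ⟨c, hc⟩ := this
  refine ⟨{2 ^ k}, rfl, fun F hF => ⟨c, fun x hx => ?_⟩⟩
  rw [show x = 2 ^ k from hF hx, mul_comm, ← hc]; exact h1

theorem no_glb (G : Ultrafilter ℕ+) (h1 : ∀ n, FE G (chain n))
    (h2 : ∀ H, (∀ n, FE H (chain n)) → FE H G) : False := by
  classical
  have hk : ∀ k : ℕ, {x : ℕ+ | 2 ^ k ∣ (x : ℕ)} ∈ G := fun k => by
    by_contra hc
    obtain ⟨A, hA, h⟩ := h2 _ (pow_lower k) _ (Ultrafilter.compl_mem_iff_notMem.2 hc)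
    obtain ⟨c, hc⟩ := h {2 ^ k} (by simpa using hA)
    exact hc (2 ^ k) (by simp) (by simp)
  have hC : ∀ n, ∃ C ∈ G, SetFE C (Set.range (a n)) := fun n =>
    h1 n _ (Filter.range_mem_map (f := (hyperfilter ℕ : Filter ℕ)))
  choose C C1 C2 using hC
  have key : ∀ x ∈ C 0, ∀ y ∈ C 0, 2 ^ (x : ℕ) ∣ (y : ℕ) → (x : ℕ) ∣ y ∧ ∃ l, p l ∣ (y : ℕ) := by
    intro x hx y hy hd
    obtain ⟨k, hk⟩ := C2 0 {x, y} (by simp [Set.insert_subset_iff, hx, hy])
    obtain ⟨N, hN⟩ := hk x (by simp)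
    obtain ⟨M, hM⟩ := hk y (by simp)
    have hN' : (a 0 N : ℕ) = k * x := congrArg PNat.val hN
    have hM' : (a 0 M : ℕ) = k * y := congrArg PNat.val hM
    have hlt : N < M := by
      by_contra hc
      have e := a_split (Nat.zero_le M) (not_lt.1 hc)
      rw [hN', hM', mul_assoc] at e
      have e2 := Nat.eq_of_mul_eq_mul_left k.pos e
      have h3 : (y : ℕ) ≤ x := Nat.le_of_dvd x.pos ⟨_, e2⟩
      have h4 := Nat.le_of_dvd y.pos hd
      have := Nat.lt_two_pow_self (n := (x : ℕ))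
      omega
    have e := a_split (Nat.zero_le N) hlt.le
    rw [hN', hM', mul_assoc] at e
    have e2 := Nat.eq_of_mul_eq_mul_left k.pos e
    refine ⟨⟨_, e2⟩, N, ?_⟩
    rw [e2]
    exact ((Finset.dvd_prod_of_mem p (by simp [hlt])).mul_left _).mul_left _
  obtain ⟨x, hx⟩ := G.nonempty_of_mem (C1 0)
  obtain ⟨y, hy1, hy2⟩ := G.nonempty_of_mem (inter_mem (C1 0) (hk x))
  obtain ⟨-, l, hl⟩ := key x hx y hy1 hy2
  obtain ⟨z, ⟨hz1, hz2⟩, hz3⟩ := G.nonempty_of_mem (inter_mem (inter_mem (C1 0) (hk y)) (C1 (l + 1)))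
  obtain ⟨k, hk⟩ := C2 (l + 1) {z} (by simpa using hz3)
  obtain ⟨N, hN⟩ := hk z (by simp)
  have : p l ∣ (a (l + 1) N : ℕ) := by
    rw [hN, PNat.mul_coe]; exact (hl.trans (key y hy1 z hz1 hz2).1).mul_left _
  have := (p_dvd this).1
  omega

end Pool.Agent.H.MP_26c4ab_lc
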